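import Pool.Agent.H.MP_3e6494_nt.h26.Coset3

/-!
# Large central values on all cosets of subgroups of index up to
`exp (c log q logloglog q / loglog q)`
-/

set_option autoImplicit false

namespace Pool.Agent.Results.MP_3e6494_nt.AllCosets

/-- For every `η > 0` there are `c > 0` and `q₀` such that for all primes `q ≥ q₀`, all subgroups
`H` of the group `X` of Dirichlet characters modulo `q` with
`log [X : H] ≤ c log q logloglog q / loglog q` and all `χ₀ ∈ X`, some character `χ` in the coset
`χ₀ H` satisfies `|L(χ, 1/2)| ≥ exp ((√(log 2 / 2) - η) √(log q / loglog q))`. -/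
theorem result :
    ∀ η : ℝ, 0 < η → ∃ c : ℝ, 0 < c ∧ ∃ q₀ : ℕ, ∀ (q : ℕ) [Fact q.Prime], q₀ ≤ q →
      ∀ (H : Subgroup (DirichletCharacter ℂ q)) (χ₀ : DirichletCharacter ℂ q),
        Real.log H.index ≤ c * (Real.log q * Real.log (Real.log (Real.log q)) /
          Real.log (Real.log q)) →
        ∃ ψ ∈ H, Real.exp ((√(Real.log 2 / 2) - η) *
          √(Real.log q / Real.log (Real.log q))) ≤ ‖(χ₀ * ψ).LFunction (1 / 2)‖ :=
  fun _ hη => Pool.Agent.H.MP_3e6494_nt.Str.all_cosets3 hη

end Pool.Agent.Results.MP_3e6494_nt.AllCosets
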