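import Pool.Agent.H.MP_3e6494_nt.helper14.RegAll

/-!
# Large central values in all cosets of large subgroups, for almost all primes

Let `2/3 < θ ≤ 1`, `0 < ν < (3θ - 2)/2` and `ε > 0`.  Outside a set `E` of primes with at most
`x ^ (3(1-θ) + 2ν)` elements up to `x` (note that `3(1-θ) + 2ν < 1`), every large prime `q` has
the following property: for EVERY subgroup `H` of the group of Dirichlet characters modulo `q`
with `#H ≥ q ^ θ` and EVERY character `χ₀`, some nontrivial character `χ` in the coset `χ₀ H`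
satisfies `|L(χ, 1/2)| ≥ exp ((√(2ν) - ε) √(log q log log log q / log log q))`.
-/

set_option autoImplicit false

namespace Pool.Agent.Results.MP_3e6494_nt.CosetAlmostAllPrimes

/-- **Large central values in all cosets of large subgroups, for almost all primes.**
For `θ ≤ 1`, `0 < ν < (3θ - 2)/2` (so `θ > 2/3`) and `ε > 0` there is a set `E` of integers with
at most `x ^ (3(1-θ) + 2ν)` elements in `[1, x]` for all large `x` (and `3(1-θ) + 2ν < 1`), such
that for all large primes `q` outside `E`, all subgroups `H` of the group of Dirichlet characters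
modulo `q` with `#H ≥ q ^ θ` and all `χ₀`, some nontrivial `χ` in the coset `χ₀ H` satisfies
`|L(χ, 1/2)| ≥ exp ((√(2ν) - ε) √(log q log log log q / log log q))`. -/
theorem result : ∀ θ ν ε : ℝ, θ ≤ 1 → 0 < ν → ν < (3 * θ - 2) / 2 → 0 < ε →
    ∃ (E : Set ℕ) (x₀ : ℕ),
      (∀ x : ℕ, x₀ ≤ x →
        ((E ∩ Set.Icc 1 x).ncard : ℝ) ≤ (x : ℝ) ^ (3 * (1 - θ) + 2 * ν)) ∧
      ∀ (q : ℕ) [Fact q.Prime], x₀ ≤ q → q ∉ E →
        ∀ H : Subgroup (DirichletCharacter ℂ q), (q : ℝ) ^ θ ≤ Nat.card H →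
          ∀ χ₀ : DirichletCharacter ℂ q, ∃ χ : DirichletCharacter ℂ q, χ₀⁻¹ * χ ∈ H ∧ χ ≠ 1 ∧
            Real.exp ((Real.sqrt (2 * ν) - ε) *
              Real.sqrt (Real.log q * Real.log (Real.log (Real.log q)) / Real.log (Real.log q))) ≤
              ‖DirichletCharacter.LFunction χ (1 / 2)‖ := by
  intro θ ν ε hθ hν hνθ hε
  exact Pool.Agent.H.MP_3e6494_nt.A14.reg_all θ hθ ν hν (by linarith) ε hε

end Pool.Agent.Results.MP_3e6494_nt.CosetAlmostAllPrimes
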