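import Pool.Agent.H.MP_3e6494_nt.helper15.Params2
import Pool.Agent.H.MP_3e6494_nt.helper15.Mertens

/-!
# Large central values of Dirichlet L-functions in subgroups of characters

Let `q` be a prime, `H` a subgroup of the group of Dirichlet characters modulo `q`, and
`V = log (#H / √q)`.  If `V` is large, then some nontrivial character `χ` in `H` satisfies
`|L(χ, 1/2)| ≥ exp ((√2 - ε) √(V log log V / log V))`.

In particular, if `#H ≥ q ^ θ` with `θ > 1/2` fixed, then some nontrivial `χ` in `H` satisfies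
`|L(χ, 1/2)| ≥ exp ((√(2θ - 1) - ε) √(log q log log log q / log log q))`.
-/

set_option autoImplicit false

open Filter Topology

namespace Pool.Agent.Results.MP_3e6494_nt.SubgroupLarge

open Pool.Agent.H.MP_3e6494_nt.H15

theorem general (ε : ℝ) (hε : 0 < ε) : ∃ V₀ : ℝ, ∀ (q : ℕ) [Fact q.Prime]
    (H : Subgroup (DirichletCharacter ℂ q)) (V : ℝ),
    V = Real.log ((Nat.card H : ℝ) / Real.sqrt q) → V₀ ≤ V →
      ∃ χ ∈ H, χ ≠ 1 ∧
        Real.exp ((Real.sqrt 2 - ε) * Real.sqrt (V * Real.log (Real.log V) / Real.log V)) ≤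
          ‖DirichletCharacter.LFunction χ (1 / 2)‖ := by
  obtain ⟨C0, hC0⟩ := mertens_lower
  set ε' : ℝ := min ε 1 with hε'
  have hε0 : 0 < ε' := lt_min hε one_pos
  have h1 := exists_blocks C0 hC0 ε' hε0
  obtain ⟨V₀, hV₀⟩ := Filter.eventually_atTop.mp (h1.and (eventually_ge_atTop 1))
  refine ⟨V₀, fun q _ H V hV hle => ?_⟩
  obtain ⟨⟨bl⟩, hV1⟩ := hV₀ V hle
  have hs2 : 1 ≤ Real.sqrt 2 := by
    rw [Real.one_le_sqrt]
    norm_num
  have h2 : ε' ≤ 1 := min_le_right _ _
  have h3 : ε' ≤ ε := min_le_left _ _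
  have hX : 0 ≤ Real.sqrt (V * Real.log (Real.log V) / Real.log V) := Real.sqrt_nonneg _
  obtain ⟨χ, hχ, hχ1, hχ2⟩ := conclude H V _ hV hV1 bl (mul_nonneg (by linarith) hX)
  refine ⟨χ, hχ, hχ1, le_trans (Real.exp_le_exp.mpr ?_) hχ2⟩
  apply mul_le_mul_of_nonneg_right _ hX
  linarith

theorem ev_log_mul_le (δ η : ℝ) (hδ : 0 < δ) (hη : 0 < η) : ∀ᶠ x : ℝ in atTop,
    Real.log (δ * x) ≤ (1 + η) * Real.log x := by
  filter_upwards [Real.tendsto_log_atTop.eventually_ge_atTop (Real.log δ / η),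
    eventually_ge_atTop (1 : ℝ)] with x h1 h2
  rw [Real.log_mul hδ.ne' (by linarith)]
  rw [div_le_iff₀ hη] at h1
  linarith

theorem ev_log_mul_ge (δ : ℝ) (hδ : 0 < δ) : ∀ᶠ x : ℝ in atTop,
    Real.log x / 2 ≤ Real.log (δ * x) := by
  filter_upwards [Real.tendsto_log_atTop.eventually_ge_atTop (- Real.log δ * 2),
    eventually_ge_atTop (1 : ℝ)] with x h1 h2
  rw [Real.log_mul hδ.ne' (by linarith)]
  linarith

theorem ev_loglog_mul_ge (δ η : ℝ) (hδ : 0 < δ) (hη : 0 < η) : ∀ᶠ x : ℝ in atTop,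
    (1 - η) * Real.log (Real.log x) ≤ Real.log (Real.log (δ * x)) := by
  have hll := Real.tendsto_log_atTop.comp Real.tendsto_log_atTop
  filter_upwards [ev_log_mul_ge δ hδ, hll.eventually_ge_atTop (Real.log 2 / η),
    eventually_gt_atTop (1 : ℝ)] with x h1 h2 h3
  have hlx : 0 < Real.log x := Real.log_pos h3
  have h4 := Real.log_le_log (by positivity) h1
  rw [Real.log_div hlx.ne' (by norm_num)] at h4
  rw [Function.comp, div_le_iff₀ hη] at h2
  linarith

theorem mono_f (a b : ℝ) (ha : Real.exp (Real.exp 1) ≤ a) (hab : a ≤ b) :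
    a * Real.log (Real.log a) / Real.log a ≤ b * Real.log (Real.log b) / Real.log b := by
  have he1 : (1 : ℝ) ≤ Real.exp 1 := Real.one_le_exp (by norm_num)
  have hee : Real.exp 1 ≤ Real.exp (Real.exp 1) := Real.exp_le_exp.mpr he1
  have ha0 : 0 < a := lt_of_lt_of_le (Real.exp_pos _) ha
  have hb0 : 0 < b := by linarith
  have hla : Real.exp 1 ≤ Real.log a := by
    rw [Real.le_log_iff_exp_le ha0]
    exact ha
  have hlb : Real.log a ≤ Real.log b := Real.log_le_log ha0 hab
  have hla0 : 0 < Real.log a := by linarith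
  have hlb0 : 0 < Real.log b := by linarith
  have h1 := Real.log_div_self_antitoneOn (hee.trans ha) ((hee.trans ha).trans hab) hab
  simp only at h1
  have h2 : a / Real.log a ≤ b / Real.log b := by
    rw [div_le_div_iff₀ hb0 ha0] at h1
    rw [div_le_div_iff₀ hla0 hlb0]
    linarith
  have h3 : Real.log (Real.log a) ≤ Real.log (Real.log b) := Real.log_le_log hla0 hlb
  have h4 : 0 ≤ Real.log (Real.log a) := Real.log_nonneg (by linarith)
  calc a * Real.log (Real.log a) / Real.log a = (a / Real.log a) * Real.log (Real.log a) := by ring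
    _ ≤ (b / Real.log b) * Real.log (Real.log b) := by gcongr
    _ = _ := by ring

theorem power (θ ε : ℝ) (hθ : 1 / 2 < θ) (hε : 0 < ε) : ∃ q₀ : ℕ, ∀ (q : ℕ) [Fact q.Prime]
    (H : Subgroup (DirichletCharacter ℂ q)), q₀ ≤ q → (q : ℝ) ^ θ ≤ Nat.card H →
      ∃ χ ∈ H, χ ≠ 1 ∧
        Real.exp ((Real.sqrt (2 * θ - 1) - ε) *
          Real.sqrt (Real.log q * Real.log (Real.log (Real.log q)) / Real.log (Real.log q))) ≤
          ‖DirichletCharacter.LFunction χ (1 / 2)‖ := by
  set δ : ℝ := θ - 1 / 2 with hδ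
  have hδ0 : 0 < δ := by linarith
  set s : ℝ := Real.sqrt δ with hs
  have hs0 : 0 < s := Real.sqrt_pos.mpr hδ0
  have hr : Real.sqrt (2 * θ - 1) = Real.sqrt 2 * s := by
    rw [hs, ← Real.sqrt_mul (by norm_num)]
    congr 1
    rw [hδ]
    ring
  set ε' : ℝ := min 1 (ε / (4 * s)) with hε'
  have hε'0 : 0 < ε' := lt_min one_pos (by positivity)
  have hε'1 : ε' ≤ 1 := min_le_left _ _
  have hε's : ε' * s ≤ ε / 4 := by
    have h1 : ε' ≤ ε / (4 * s) := min_le_right _ _
    rw [le_div_iff₀ (by positivity)] at h1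
    linarith
  set η : ℝ := min (1 / 2) (ε / (4 * s)) with hη
  have hη0 : 0 < η := lt_min (by norm_num) (by positivity)
  have hη1 : η ≤ 1 / 2 := min_le_left _ _
  have hηs : η * s ≤ ε / 4 := by
    have h1 : η ≤ ε / (4 * s) := min_le_right _ _
    rw [le_div_iff₀ (by positivity)] at h1
    linarith
  obtain ⟨V₀, hV₀⟩ := general ε' hε'0
  have ht : Tendsto (fun q : ℕ => Real.log (q : ℝ)) atTop atTop :=
    Real.tendsto_log_atTop.comp tendsto_natCast_atTop_atTop
  have hll : Tendsto (fun x : ℝ => Real.log (Real.log x)) atTop atTop :=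
    Real.tendsto_log_atTop.comp Real.tendsto_log_atTop
  have hev : ∀ᶠ x : ℝ in atTop, Real.log (δ * x) ≤ (1 + η) * Real.log x ∧
      (1 - η) * Real.log (Real.log x) ≤ Real.log (Real.log (δ * x)) ∧
      max V₀ (Real.exp (Real.exp 1)) ≤ δ * x ∧ 0 < Real.log (Real.log x) ∧ 1 < x := by
    filter_upwards [ev_log_mul_le δ η hδ0 hη0, ev_loglog_mul_ge δ η hδ0 hη0,
      (tendsto_id.const_mul_atTop hδ0).eventually_ge_atTop (max V₀ (Real.exp (Real.exp 1))),
      hll.eventually_gt_atTop 0, eventually_gt_atTop (1 : ℝ)] with x h1 h2 h3 h4 h5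
    exact ⟨h1, h2, h3, h4, h5⟩
  obtain ⟨q₀, hq₀⟩ := Filter.eventually_atTop.mp (ht.eventually hev)
  refine ⟨q₀, fun q _ H hq hH => ?_⟩
  obtain ⟨h1, h2, h3, h4, h5⟩ := hq₀ q hq
  have hqp : q.Prime := Fact.out
  have hq0 : (0 : ℝ) < q := by exact_mod_cast hqp.pos
  set x : ℝ := Real.log q with hx
  set V : ℝ := Real.log ((Nat.card H : ℝ) / Real.sqrt q) with hV
  have hVge : δ * x ≤ V := by
    have h6 : (q : ℝ) ^ δ ≤ (Nat.card H : ℝ) / Real.sqrt q := by
      rw [le_div_iff₀ (Real.sqrt_pos.mpr hq0), Real.sqrt_eq_rpow, ← Real.rpow_add hq0, hδ]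
      rw [show θ - 1 / 2 + 1 / 2 = θ by ring]
      exact hH
    have h7 := Real.log_le_log (Real.rpow_pos_of_pos hq0 _) h6
    rwa [Real.log_rpow hq0] at h7
  have hV0 : V₀ ≤ V := (le_max_left _ _).trans (h3.trans hVge)
  have hVe : Real.exp (Real.exp 1) ≤ δ * x := (le_max_right _ _).trans h3
  obtain ⟨χ, hχ, hχ1, hχ2⟩ := hV₀ q H V rfl hV0
  refine ⟨χ, hχ, hχ1, le_trans (Real.exp_le_exp.mpr ?_) hχ2⟩
  have hlx : 0 < Real.log x := Real.log_pos h5
  have hx0 : 0 < x := by linarith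
  have hldx : 0 < Real.log (δ * x) := by
    apply Real.log_pos
    have h8 : Real.exp 0 < Real.exp (Real.exp 1) := Real.exp_lt_exp.mpr (Real.exp_pos _)
    rw [Real.exp_zero] at h8
    linarith
  set F : ℝ := x * Real.log (Real.log x) / Real.log x with hF
  have hF0 : 0 ≤ F := by positivity
  have h6 : s ^ 2 * (1 - η) ^ 2 * F ≤ V * Real.log (Real.log V) / Real.log V := by
    refine le_trans ?_ (mono_f (δ * x) V hVe hVge)
    have hs2 : s ^ 2 = δ := Real.sq_sqrt hδ0.le
    rw [hs2, hF, mul_div_assoc', div_le_div_iff₀ hlx hldx]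
    calc δ * (1 - η) ^ 2 * (x * Real.log (Real.log x)) * Real.log (δ * x) ≤
        δ * (1 - η) ^ 2 * (x * Real.log (Real.log x)) * ((1 + η) * Real.log x) := by
          apply mul_le_mul_of_nonneg_left h1
          positivity
      _ = ((1 - η) * (1 + η)) * ((δ * x) * ((1 - η) * Real.log (Real.log x)) * Real.log x) := by ring
      _ ≤ 1 * ((δ * x) * ((1 - η) * Real.log (Real.log x)) * Real.log x) := by
          apply mul_le_mul_of_nonneg_right
          · nlinarith
          · have : 0 ≤ 1 - η := by linarith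
            positivity
      _ ≤ _ := by
          rw [one_mul]
          gcongr
  have h7 : s * (1 - η) * Real.sqrt F ≤ Real.sqrt (V * Real.log (Real.log V) / Real.log V) := by
    have e : s * (1 - η) * Real.sqrt F = Real.sqrt (s ^ 2 * (1 - η) ^ 2 * F) := by
      rw [show s ^ 2 * (1 - η) ^ 2 * F = F * (s * (1 - η)) ^ 2 by ring,
        Real.sqrt_mul hF0, Real.sqrt_sq (mul_nonneg hs0.le (by linarith))]
      ring
    rw [e]
    exact Real.sqrt_le_sqrt h6
  have hs2 : 1 ≤ Real.sqrt 2 := by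
    rw [Real.one_le_sqrt]
    norm_num
  have hs2' : Real.sqrt 2 ≤ 8 / 5 := by
    rw [Real.sqrt_le_left (by norm_num)]
    norm_num
  have hF1 : 0 ≤ Real.sqrt F := Real.sqrt_nonneg _
  rw [hr]
  calc (Real.sqrt 2 * s - ε) * Real.sqrt F ≤ ((Real.sqrt 2 - ε') * (s * (1 - η))) * Real.sqrt F := by
        apply mul_le_mul_of_nonneg_right _ hF1
        have e : (Real.sqrt 2 - ε') * (s * (1 - η)) =
            Real.sqrt 2 * s - Real.sqrt 2 * (η * s) - ε' * s + ε' * (η * s) := by ring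
        rw [e]
        have h8 : 0 ≤ η * s := by positivity
        have h9 : Real.sqrt 2 * (η * s) ≤ 8 / 5 * (ε / 4) := by
          apply mul_le_mul hs2' hηs h8 (by norm_num)
        have h10 : 0 ≤ ε' * (η * s) := by positivity
        linarith
    _ = (Real.sqrt 2 - ε') * (s * (1 - η) * Real.sqrt F) := by ring
    _ ≤ _ := by
        apply mul_le_mul_of_nonneg_left h7
        linarith

/-- **Large central values in subgroups.**
(1) For every `ε > 0`, every prime `q` and every subgroup `H` of the group of Dirichlet characters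
modulo `q` for which `V = log (#H / √q)` is large enough in terms of `ε`, some nontrivial `χ ∈ H`
has `|L(χ, 1/2)| ≥ exp ((√2 - ε) √(V log log V / log V))`.
(2) For all `θ > 1/2` and `ε > 0`, every large enough prime `q` and every subgroup `H` with
`#H ≥ q ^ θ`, some nontrivial `χ ∈ H` has
`|L(χ, 1/2)| ≥ exp ((√(2θ - 1) - ε) √(log q log log log q / log log q))`. -/
theorem result :
    (∀ ε : ℝ, 0 < ε → ∃ V₀ : ℝ, ∀ (q : ℕ) [Fact q.Prime]
      (H : Subgroup (DirichletCharacter ℂ q)) (V : ℝ),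
      V = Real.log ((Nat.card H : ℝ) / Real.sqrt q) → V₀ ≤ V →
        ∃ χ ∈ H, χ ≠ 1 ∧
          Real.exp ((Real.sqrt 2 - ε) * Real.sqrt (V * Real.log (Real.log V) / Real.log V)) ≤
            ‖DirichletCharacter.LFunction χ (1 / 2)‖) ∧
    (∀ θ ε : ℝ, 1 / 2 < θ → 0 < ε → ∃ q₀ : ℕ, ∀ (q : ℕ) [Fact q.Prime]
      (H : Subgroup (DirichletCharacter ℂ q)), q₀ ≤ q → (q : ℝ) ^ θ ≤ Nat.card H →
        ∃ χ ∈ H, χ ≠ 1 ∧
          Real.exp ((Real.sqrt (2 * θ - 1) - ε) *
            Real.sqrt (Real.log q * Real.log (Real.log (Real.log q)) / Real.log (Real.log q))) ≤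
            ‖DirichletCharacter.LFunction χ (1 / 2)‖) :=
  ⟨general, power⟩

end Pool.Agent.Results.MP_3e6494_nt.SubgroupLarge
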