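import Pool.Agent.H.MP_3e6494_nt.helper14.RegOne
import Pool.Agent.H.MP_3e6494_nt.helper14.RegTwo
import Pool.Agent.H.MP_3e6494_nt.helper14.RegThree
import Pool.Agent.H.MP_3e6494_nt.helper14.ResEx

/-!
# Large central values in almost all cosets of every subgroup of size `q ^ θ`, for almost all primes

Let `0 < θ ≤ 1` and `ε > 0`, and let `c(θ)² = max (1/4, θ/2, 2θ - 1)`.  There are `δ > 0`, a set
`E` of integers with at most `x ^ (1 - δ)` elements up to `x` for all large `x`, and `x₀`, such that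
for every prime `q ≥ x₀` outside `E` and every subgroup `H` of the group of Dirichlet characters
modulo `q` with `#H ≥ q ^ θ` the following holds for all but at most `q ^ (1 - δ)` characters `χ₀`:
some nontrivial character `χ` in the coset `χ₀ H` satisfies
`|L(χ, 1/2)| ≥ exp ((c(θ) - ε) √(log q logloglog q / loglog q))`.
-/

set_option autoImplicit false

namespace Pool.Agent.Results.MP_3e6494_nt.TypicalPrimes

open Pool.Agent.H.MP_3e6494_nt

/-- **Large central values in almost all cosets of every subgroup of order at least `q ^ θ`**, for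
all primes `q` outside a sparse set. -/
theorem result : ∀ θ : ℝ, 0 < θ → θ ≤ 1 → ∀ ε : ℝ, 0 < ε →
    ∃ (δ : ℝ) (E : Set ℕ) (x₀ : ℕ), 0 < δ ∧
      (∀ x : ℕ, x₀ ≤ x → ((E ∩ Set.Icc 1 x).ncard : ℝ) ≤ (x : ℝ) ^ (1 - δ)) ∧
      ∀ (q : ℕ) [Fact q.Prime], x₀ ≤ q → q ∉ E →
        ∀ H : Subgroup (DirichletCharacter ℂ q), (q : ℝ) ^ θ ≤ Nat.card H →
          ({χ₀ : DirichletCharacter ℂ q | ∀ χ : DirichletCharacter ℂ q, χ₀⁻¹ * χ ∈ H → χ ≠ 1 →
            ‖DirichletCharacter.LFunction χ (1 / 2)‖ <
            Real.exp ((Real.sqrt (max (1 / 4) (max (θ / 2) (2 * θ - 1))) - ε) *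
              Real.sqrt (Real.log q * Real.log (Real.log (Real.log q)) /
                Real.log (Real.log q)))}.ncard : ℝ) ≤ (q : ℝ) ^ (1 - δ) := by
  intro θ h0 h1
  have hsq : Real.sqrt (1 / 4) = 1 / 2 := by
    rw [show (1 : ℝ) / 4 = (1 / 2) ^ 2 by norm_num]
    exact Real.sqrt_sq (by norm_num)
  have hmain : A14.Reg θ (Real.sqrt (max (1 / 4) (max (θ / 2) (2 * θ - 1)))) := by
    rcases le_total (1 / 4) (max (θ / 2) (2 * θ - 1)) with h | h
    · rw [max_eq_right h]
      rcases le_total (θ / 2) (2 * θ - 1) with h' | h'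
      · rw [max_eq_right h']
        rw [max_eq_right h'] at h
        exact A14.reg_two θ (by linarith) h1
      · rw [max_eq_left h']
        exact A14.reg_one_of A14.resEx θ h0 h1
    · rw [max_eq_left h, hsq]
      exact A14.reg_three A14.resEx θ h0 h1
  exact hmain

end Pool.Agent.Results.MP_3e6494_nt.TypicalPrimes
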